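import Mathlib
import Pool.Agent.Helper69.DC.Goals

/-!
# The kappa lemma
-/

namespace Pool.Agent.Helper33.DC

open MvPolynomial Finset ComplexConjugate Pool.Agent.Helper69.DC

/-! ### The Hermitian form -/

theorem hf_zero {N : ℕ} (x : Fin (N + 1) → ℂ) : hf x 0 = 0 := by
  simp [hf]

theorem hf_add {N : ℕ} (x y z : Fin (N + 1) → ℂ) : hf x (y + z) = hf x y + hf x z := by
  unfold hf
  simp only [Pi.add_apply, map_add, mul_add, sum_add_distrib]
  ring

theorem hf_smul {N : ℕ} (x : Fin (N + 1) → ℂ) (c : ℂ) (y : Fin (N + 1) → ℂ) :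
    hf x (c • y) = conj c * hf x y := by
  unfold hf
  simp only [Pi.smul_apply, smul_eq_mul, map_mul]
  rw [mul_sub, mul_sum]
  congr 1
  · ring
  · refine sum_congr rfl fun j _ => ?_
    ring

theorem hf_sum {N : ℕ} (x : Fin (N + 1) → ℂ) (s : Finset ℕ) (κ : ℕ → ℂ)
    (A : ℕ → Fin (N + 1) → ℂ) :
    hf x (∑ j ∈ s, κ j • A j) = ∑ j ∈ s, conj (κ j) * hf x (A j) := by
  induction s using Finset.induction_on with
  | empty => rw [sum_empty, sum_empty, hf_zero]
  | insert i s hi ih => rw [sum_insert hi, sum_insert hi, hf_add, hf_smul, ih]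

theorem hf_exp {N : ℕ} (a b r y : Fin (N + 1) → ℂ) (ε : ℂ) :
    hf (fun k => a k + ε * b k + ε ^ 2 * r k) y = hf a y + ε * hf b y + ε ^ 2 * hf r y := by
  unfold hf
  simp only [add_mul, sum_add_distrib, mul_sub, mul_sum]
  have h1 : ∀ z : Fin (N + 1) → ℂ, ∀ e : ℂ, ∑ j : Fin N, e * z j.succ * conj (y j.succ) =
      ∑ j : Fin N, e * (z j.succ * conj (y j.succ)) := fun z e =>
    sum_congr rfl fun j _ => by ring
  rw [h1 b, h1 r]
  ring

theorem hf_poly {N : ℕ} (R : Fin (N + 1) → Polynomial ℂ) (y : Fin (N + 1) → ℂ) :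
    ∃ Q : Polynomial ℂ, ∀ ε : ℂ, hf (fun k => (R k).eval ε) y = Q.eval ε := by
  refine ⟨R 0 * Polynomial.C (conj (y 0)) -
    ∑ j : Fin N, R j.succ * Polynomial.C (conj (y j.succ)), fun ε => ?_⟩
  unfold hf
  simp [Polynomial.eval_finsetSum]

/-! ### Polynomials in one variable -/

theorem coef_zero (n : ℕ) (a : ℕ → ℂ) (h : ∀ t : ℂ, ∑ j ∈ range n, t ^ j * a j = 0) :
    ∀ j < n, a j = 0 := by
  intro j hj
  have h1 : (∑ i ∈ range n, Polynomial.C (a i) * Polynomial.X ^ i : Polynomial ℂ) = 0 := by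
    apply Polynomial.funext
    intro t
    rw [Polynomial.eval_finsetSum, Polynomial.eval_zero, ← h t]
    refine sum_congr rfl fun i _ => ?_
    simp only [Polynomial.eval_mul, Polynomial.eval_C, Polynomial.eval_pow, Polynomial.eval_X]
    ring
  have h2 := congrArg (fun p : Polynomial ℂ => p.coeff j) h1
  simp only [Polynomial.finsetSum_coeff, Polynomial.coeff_C_mul, Polynomial.coeff_X_pow,
    Polynomial.coeff_zero] at h2
  rw [sum_eq_single j] at h2
  · simpa using h2
  · intro b _ hb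
    rw [if_neg (Ne.symm hb), mul_zero]
  · intro hn
    exact absurd (mem_range.2 hj) hn

theorem coef_one (a b a' b' : ℂ) (R S : Polynomial ℂ)
    (h : ∀ ε : ℂ, a + ε * b + ε ^ 2 * R.eval ε = a' + ε * b' + ε ^ 2 * S.eval ε) : b = b' := by
  have h1 : Polynomial.C (a - a') + Polynomial.C (b - b') * Polynomial.X +
      Polynomial.X ^ 2 * (R - S) = 0 := by
    apply Polynomial.funext
    intro ε
    have := h ε
    simp only [Polynomial.eval_add, Polynomial.eval_mul, Polynomial.eval_C, Polynomial.eval_X,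
      Polynomial.eval_pow, Polynomial.eval_sub, Polynomial.eval_zero]
    linear_combination this
  have h2 := congrArg (fun p : Polynomial ℂ => p.coeff 1) h1
  simp only [Polynomial.coeff_add, Polynomial.coeff_C_mul, Polynomial.coeff_X_one,
    Polynomial.coeff_zero, Polynomial.coeff_X_pow_mul', Polynomial.coeff_C] at h2
  norm_num at h2
  exact sub_eq_zero.1 h2

/-- Expansion of a polynomial along a line. -/
theorem expand {σ : Type} [Fintype σ] (x y : σ → ℂ) (P : MvPolynomial σ ℂ) :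
    ∃ R : Polynomial ℂ, ∀ ε : ℂ, eval (fun s => x s + ε * y s) P =
      eval x P + ε * (∑ s, y s * eval x (pderiv s P)) + ε ^ 2 * R.eval ε := by
  classical
  induction P using MvPolynomial.induction_on with
  | C c =>
    refine ⟨0, fun ε => ?_⟩
    simp
  | add p q hp hq =>
    obtain ⟨R, hR⟩ := hp
    obtain ⟨S, hS⟩ := hq
    refine ⟨R + S, fun ε => ?_⟩
    simp only [map_add, mul_add, sum_add_distrib, Polynomial.eval_add]
    rw [hR, hS]
    ring
  | mul_X p s hp =>
    obtain ⟨R, hR⟩ := hp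
    refine ⟨R * Polynomial.C (x s) + Polynomial.C ((∑ s, y s * eval x (pderiv s p)) * y s) +
      Polynomial.X * R * Polynomial.C (y s), fun ε => ?_⟩
    have h1 : ∑ s', y s' * eval x (pderiv s' (p * X s)) =
        (∑ s', y s' * eval x (pderiv s' p)) * x s + eval x p * y s := by
      have h2 : ∀ s', y s' * eval x (pderiv s' (p * X s)) =
          y s' * eval x (pderiv s' p) * x s + (if s' = s then eval x p * y s else 0) := by
        intro s'
        rw [Derivation.leibniz]
        simp only [smul_eq_mul, map_add, map_mul, eval_X, pderiv_X]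
        by_cases hs : s' = s
        · subst hs
          simp
          ring
        · rw [if_neg hs, Pi.single_eq_of_ne (Ne.symm hs)]
          simp
          ring
      rw [sum_congr rfl fun s' _ => h2 s', sum_add_distrib, ← sum_mul, sum_ite_eq',
        if_pos (mem_univ s)]
    rw [h1, map_mul, hR, map_mul, eval_X, eval_X]
    simp only [Polynomial.eval_add, Polynomial.eval_mul, Polynomial.eval_C, Polynomial.eval_X]
    ring

/-! ### The map on the hyperplane -/

theorem eval_aeval' {σ τ : Type} (g : σ → MvPolynomial τ ℂ) (η : τ → ℂ)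
    (P : MvPolynomial σ ℂ) : eval η (aeval g P) = eval (fun s => eval η (g s)) P := by
  induction P using MvPolynomial.induction_on with
  | C a => simp [MvPolynomial.algebraMap_eq]
  | add p q hp hq => rw [map_add, map_add, map_add, hp, hq]
  | mul_X p s hp => rw [map_mul, map_mul, map_mul, hp, aeval_X, eval_X]

theorem eval_gp {m N : ℕ} (f : Fin (N + 1) → MvPolynomial (Fin m ⊕ Unit) ℂ) (β : Fin m → ℂ)
    (b : ℂ) (k : Fin (N + 1)) (η : Fin m → ℂ) :
    eval η (gp f β b k) = fv f η (∑ i, η i * conj (β i) - b) k := by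
  unfold gp fv
  rw [eval_aeval']
  congr 2
  funext s
  rcases s with i | u
  · simp
  · simp only [Sum.elim_inr, map_sub, map_sum, map_mul, eval_C, eval_X]
    congr 1
    exact sum_congr rfl fun i _ => mul_comm _ _

theorem eval_hq {m N : ℕ} (f : Fin (N + 1) → MvPolynomial (Fin m ⊕ Unit) ℂ) (β : Fin m → ℂ)
    (b : ℂ) (c : Fin (N + 1) → ℂ) (η : Fin m → ℂ) :
    eval η (hq f β b c) = hf (fv f η (∑ i, η i * conj (β i) - b)) c := by
  unfold hq hf
  simp only [map_sub, map_mul, eval_C, map_sum, eval_gp]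
  congr 1
  · ring
  · refine sum_congr rfl fun j _ => ?_
    ring

theorem fv_line {m N : ℕ} (f : Fin (N + 1) → MvPolynomial (Fin m ⊕ Unit) ℂ)
    (η w : Fin m → ℂ) (e W ε : ℂ) (k : Fin (N + 1)) :
    fv f (fun i => η i + ε * w i) (e + ε * W) k =
      eval (fun s => (Sum.elim η (fun _ => e) : Fin m ⊕ Unit → ℂ) s +
        ε * (Sum.elim w (fun _ => W) : Fin m ⊕ Unit → ℂ) s) (f k) := by
  unfold fv
  congr 2
  funext s
  rcases s with i | u <;> rfl

/-- The `κ` lemma. -/
theorem g_e (h1 : Pool.Agent.Helper69.DC.G_AJO) (h2 : Pool.Agent.Helper69.DC.G_DIV) :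
    Pool.Agent.Helper69.DC.G_E := by
  intro m N d f hf' β a hnull v κ hκ
  obtain ⟨-, -, -, hA0, hAs⟩ := h1 m N d f hf' β a hnull
  -- notation
  obtain ⟨A, hA⟩ : ∃ A : ℕ → Fin (N + 1) → ℂ, A = AJ f β a v := ⟨_, rfl⟩
  have hAz : ∀ j, d < j → A j = 0 := fun j hj => by rw [hA]; exact hA0 v j hj
  have hAt : ∀ t : ℂ, ∑ j ∈ range (d + 1), t ^ j • A j =
      fv f (fun i => β i + t * v i) (a + t * ∑ i, v i * conj (β i)) := fun t => by
    rw [hA]
    exact hAs v t
  have hκ' : ∑ j ∈ range (d + 1), κ j • A j = 0 := by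
    rw [hA]
    exact hκ
  have hc : ∑ j ∈ range d, κ j • AJ f β a v (j + 1) = ∑ j ∈ range d, κ j • A (j + 1) := by
    rw [hA]
  rw [hc]
  obtain ⟨c, hcd⟩ : ∃ c : Fin (N + 1) → ℂ, c = ∑ j ∈ range d, κ j • A (j + 1) := ⟨_, rfl⟩
  rw [← hcd]
  by_cases hv : v = 0
  · -- all `A_j` with `j ≥ 1` are zero
    have h3 : ∀ j, 0 < j → A j = 0 := by
      intro j hj
      by_cases hjd : d < j
      · exact hAz j hjd
      funext k
      have h4 := coef_zero (d + 1) (fun i => A i k - (if i = 0 then fv f β a k else 0)) (by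
        intro t
        have h5 := congrFun (hAt t) k
        rw [hv] at h5
        simp only [Pi.zero_apply, mul_zero, add_zero, zero_mul, sum_const_zero] at h5
        rw [Finset.sum_apply] at h5
        simp only [Pi.smul_apply, smul_eq_mul] at h5
        simp only [mul_sub, sum_sub_distrib, mul_ite, mul_zero]
        rw [h5, sum_ite_eq', if_pos (mem_range.2 (Nat.succ_pos d)), pow_zero, one_mul]
        exact sub_self _) j (by omega)
      simpa [hj.ne'] using h4
    have h6 : c = 0 := by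
      rw [hcd]
      refine sum_eq_zero fun j _ => ?_
      rw [h3 (j + 1) (Nat.succ_pos j), smul_zero]
    have h7 : hq f β (conj a) c = 0 := by
      rw [h6]
      unfold hq
      simp
    rw [h7]
    exact dvd_zero _
  refine h2 m β v hv _ fun η hη => ?_
  -- the point `Y = (η, e)`
  obtain ⟨e, he⟩ : ∃ e : ℂ, e = ∑ i, η i * conj (β i) - conj a := ⟨_, rfl⟩
  have hηv : ∑ i, η i * conj (v i) = ∑ i, β i * conj (v i) := by
    have h3 : ∑ i, (η i - β i) * conj (v i) =
        ∑ i, η i * conj (v i) - ∑ i, β i * conj (v i) := by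
      rw [← sum_sub_distrib]
      exact sum_congr rfl fun i _ => by ring
    rw [h3] at hη
    exact sub_eq_zero.1 hη
  -- orthogonality
  have key : ∀ (w : Fin m → ℂ) (t ε : ℂ),
      hf (fv f (fun i => η i + ε * w i) (e + ε * (∑ i, w i * conj (β i) +
        conj t * ∑ i, w i * conj (v i)))) (∑ j ∈ range (d + 1), t ^ j • A j) = 0 := by
    intro w t ε
    rw [hAt t]
    apply hf'.orth
    have e1 : conj (a + t * ∑ i, v i * conj (β i)) =
        conj a + conj t * ∑ i, β i * conj (v i) := by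
      rw [map_add, map_mul, map_sum]
      congr 2
      refine sum_congr rfl fun i _ => ?_
      rw [map_mul, Complex.conj_conj]
      ring
    have e2 : ∑ i, (η i + ε * w i) * conj (β i + t * v i) =
        ∑ i, η i * conj (β i) + conj t * ∑ i, η i * conj (v i) +
          ε * (∑ i, w i * conj (β i) + conj t * ∑ i, w i * conj (v i)) := by
      rw [mul_sum, mul_sum, mul_add, mul_sum, mul_sum, ← sum_add_distrib, ← sum_add_distrib,
        ← sum_add_distrib]
      refine sum_congr rfl fun i _ => ?_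
      rw [map_add, map_mul]
      ring
    rw [e1, e2, he, hηv]
    ring
  -- the first order terms
  have first : ∀ (w : Fin m → ℂ) (W : ℂ) (y : Fin (N + 1) → ℂ), ∃ Q : Polynomial ℂ, ∀ ε : ℂ,
      hf (fv f (fun i => η i + ε * w i) (e + ε * W)) y =
        hf (fv f η e) y + ε * hf (fun k => ∑ s, (Sum.elim w (fun _ => W) : Fin m ⊕ Unit → ℂ) s *
          eval (Sum.elim η (fun _ => e)) (pderiv s (f k))) y + ε ^ 2 * Q.eval ε := by
    intro w W y
    choose R hR using fun k => expand (Sum.elim η (fun _ => e) : Fin m ⊕ Unit → ℂ)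
      (Sum.elim w (fun _ => W)) (f k)
    obtain ⟨Q, hQ⟩ := hf_poly R y
    refine ⟨Q, fun ε => ?_⟩
    rw [← hQ ε, ← hf_exp]
    congr 1
    funext k
    rw [fv_line, hR k ε]
    rfl
  have zeroth : ∀ j, hf (fv f η e) (A j) = 0 := by
    have h3 := coef_zero (d + 1) (fun j => hf (fv f η e) (A j)) (by
      intro τ
      have h4 := key 0 (conj τ) 0
      simp only [Pi.zero_apply, mul_zero, add_zero, zero_mul] at h4
      rw [hf_sum] at h4
      simpa using h4)
    intro j
    by_cases hj : d < j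
    · rw [hAz j hj, hf_zero]
    · exact h3 j (by omega)
  have hval : eval η (hq f β (conj a) c) = 0 := by
    rw [eval_hq, ← he, hcd, hf_sum]
    refine sum_eq_zero fun j _ => ?_
    rw [zeroth, mul_zero]
  refine ⟨hval, fun i₀ => ?_⟩
  -- the direction
  obtain ⟨w, hw⟩ : ∃ w : Fin m → ℂ, w = Pi.single i₀ 1 := ⟨_, rfl⟩
  obtain ⟨W, hW⟩ : ∃ W : ℂ, W = ∑ i, w i * conj (β i) := ⟨_, rfl⟩
  obtain ⟨μ, hμ⟩ : ∃ μ : ℂ, μ = ∑ i, w i * conj (v i) := ⟨_, rfl⟩
  obtain ⟨Gw, hGw⟩ : ∃ Gw : Fin (N + 1) → ℂ, Gw = fun k => ∑ s,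
      (Sum.elim w (fun _ => W) : Fin m ⊕ Unit → ℂ) s *
        eval (Sum.elim η (fun _ => e)) (pderiv s (f k)) := ⟨_, rfl⟩
  obtain ⟨Ga, hGa⟩ : ∃ Ga : Fin (N + 1) → ℂ, Ga = fun k =>
      eval (Sum.elim η (fun _ => e)) (pderiv (Sum.inr ()) (f k)) := ⟨_, rfl⟩
  have hfl : ∀ (τ : ℂ) (y : Fin (N + 1) → ℂ),
      hf (fun k => ∑ s, (Sum.elim w (fun _ => W + τ * μ) : Fin m ⊕ Unit → ℂ) s *
        eval (Sum.elim η (fun _ => e)) (pderiv s (f k))) y = hf Gw y + τ * μ * hf Ga y := by
    intro τ y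
    have h3 : (fun k => ∑ s, (Sum.elim w (fun _ => W + τ * μ) : Fin m ⊕ Unit → ℂ) s *
        eval (Sum.elim η (fun _ => e)) (pderiv s (f k))) =
        fun k => Gw k + (τ * μ) * Ga k + (τ * μ) ^ 2 * (0 : Fin (N + 1) → ℂ) k := by
      funext k
      rw [hGw, hGa]
      simp only [Fintype.sum_sum_type, Sum.elim_inl, Sum.elim_inr, univ_unique, sum_singleton,
        Pi.zero_apply, mul_zero, add_zero]
      ring
    rw [h3, hf_exp]
    have h4 : hf (0 : Fin (N + 1) → ℂ) y = 0 := by simp [hf]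
    rw [h4, mul_zero, add_zero]
  have hτ : ∀ τ : ℂ, ∑ j ∈ range (d + 1), τ ^ j * (hf Gw (A j) + τ * μ * hf Ga (A j)) = 0 := by
    intro τ
    obtain ⟨Q, hQ⟩ := first w (W + τ * μ) (∑ j ∈ range (d + 1), conj τ ^ j • A j)
    have h3 := coef_one _ _ 0 0 Q 0 (fun ε => by
      rw [← hQ ε]
      have h4 := key w (conj τ) ε
      rw [Complex.conj_conj, ← hW, ← hμ] at h4
      rw [h4]
      simp)
    rw [hfl, hf_sum, hf_sum] at h3
    rw [← h3, mul_sum, ← sum_add_distrib]
    refine sum_congr rfl fun j _ => ?_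
    rw [map_pow, Complex.conj_conj]
    ring
  have hrec : ∀ j < d + 1, hf Gw (A (j + 1)) + μ * hf Ga (A j) = 0 := by
    obtain ⟨g, hg⟩ : ∃ g : ℕ → ℂ, g = fun j => Nat.casesOn j (hf Gw (A 0))
      (fun i => hf Gw (A (i + 1)) + μ * hf Ga (A i)) := ⟨_, rfl⟩
    have hg0 : g 0 = hf Gw (A 0) := by
      rw [hg]
      rfl
    have hgs : ∀ i, g (i + 1) = hf Gw (A (i + 1)) + μ * hf Ga (A i) := fun i => by rw [hg]
    have h3 := coef_zero (d + 2) g (by
      intro τ
      rw [← hτ τ, sum_range_succ']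
      have h4 : ∑ j ∈ range (d + 1), τ ^ j * hf Gw (A j) =
          ∑ j ∈ range (d + 1), τ ^ (j + 1) * hf Gw (A (j + 1)) + τ ^ 0 * hf Gw (A 0) := by
        rw [← sum_range_succ' (fun j => τ ^ j * hf Gw (A j)) (d + 1), sum_range_succ _ (d + 1),
          hAz (d + 1) (by omega), hf_zero, mul_zero, add_zero]
      have h5 : ∑ j ∈ range (d + 1), τ ^ j * (hf Gw (A j) + τ * μ * hf Ga (A j)) =
          ∑ j ∈ range (d + 1), τ ^ j * hf Gw (A j) +
          ∑ j ∈ range (d + 1), τ ^ (j + 1) * (μ * hf Ga (A j)) := by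
        rw [← sum_add_distrib]
        refine sum_congr rfl fun j _ => ?_
        ring
      rw [h5, h4, hg0]
      simp only [hgs, mul_add, sum_add_distrib]
      ring)
    intro j hj
    have h6 := h3 (j + 1) (by omega)
    rw [hgs] at h6
    exact h6
  have hGc : hf Gw c = 0 := by
    rw [hcd, hf_sum]
    have h3 : ∑ j ∈ range (d + 1), conj (κ j) * hf Ga (A j) = 0 := by
      rw [← hf_sum, hκ', hf_zero]
    have h4 : ∀ j ∈ range d, conj (κ j) * hf Gw (A (j + 1)) =
        -μ * (conj (κ j) * hf Ga (A j)) := by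
      intro j hj
      have h5 := hrec j (by have := mem_range.1 hj; omega)
      have h6 : hf Gw (A (j + 1)) = -(μ * hf Ga (A j)) := by linear_combination h5
      rw [h6]
      ring
    have h7 : μ * hf Ga (A d) = 0 := by
      have h8 := hrec d (by omega)
      rw [hAz (d + 1) (by omega), hf_zero, zero_add] at h8
      exact h8
    rw [sum_congr rfl h4, ← mul_sum]
    rw [sum_range_succ] at h3
    have h9 : ∑ j ∈ range d, conj (κ j) * hf Ga (A j) = -(conj (κ d) * hf Ga (A d)) := by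
      linear_combination h3
    rw [h9]
    linear_combination conj (κ d) * h7
  -- the derivative of `h`
  obtain ⟨R, hR⟩ := expand η w (hq f β (conj a) c)
  obtain ⟨Q, hQ⟩ := first w W c
  have h3 := coef_one _ _ _ _ R Q (fun ε => by
    rw [← hR ε, ← hQ ε, eval_hq]
    have h4 : ∑ i, (η i + ε * w i) * conj (β i) - conj a = e + ε * W := by
      rw [he, hW, mul_sum]
      have h5 : ∑ i, (η i + ε * w i) * conj (β i) =
          ∑ i, η i * conj (β i) + ∑ i, ε * (w i * conj (β i)) := by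
        rw [← sum_add_distrib]
        exact sum_congr rfl fun i _ => by ring
      rw [h5]
      ring
    rw [h4])
  have h6 : hf (fun k => ∑ s, (Sum.elim w (fun _ => W) : Fin m ⊕ Unit → ℂ) s *
        eval (Sum.elim η (fun _ => e)) (pderiv s (f k))) c = 0 := by
    rw [← hGw]
    exact hGc
  rw [h6, hw] at h3
  have h7 : ∑ s, (Pi.single i₀ 1 : Fin m → ℂ) s * eval η (pderiv s (hq f β (conj a) c)) =
      eval η (pderiv i₀ (hq f β (conj a) c)) := by
    rw [sum_eq_single i₀]
    · rw [Pi.single_eq_same, one_mul]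
    · intro b _ hb
      rw [Pi.single_eq_of_ne hb, zero_mul]
    · intro hn
      exact absurd (mem_univ _) hn
  rw [← h7]
  exact h3

end Pool.Agent.Helper33.DC
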