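import Mathlib
import Pool.Agent.Helper66.DC.Goals4

set_option autoImplicit false

open MvPolynomial Finset Pointwise

noncomputable section

namespace Pool.Agent.Helper33.DC

/-- The monomial order used. -/
def mo (m : ℕ) : MonomialOrder (Fin m) := MonomialOrder.lex

/-- Polynomials with different leading monomials are independent. -/
theorem li_of_deg {m : ℕ} {ι : Type} (p : ι → MvPolynomial (Fin m) ℂ) (h0 : ∀ i, p i ≠ 0)
    (hinj : Function.Injective fun i => (mo m).degree (p i)) : LinearIndependent ℂ p := by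
  classical
  rw [linearIndependent_iff']
  intro s c hc
  by_contra hne
  push Not at hne
  obtain ⟨i0, hi0, hci0⟩ := hne
  obtain ⟨i, hi, hmax⟩ := Finset.exists_max_image (s.filter fun i => c i ≠ 0)
    (fun i => (mo m).toSyn ((mo m).degree (p i))) ⟨i0, by simp [hi0, hci0]⟩
  rw [Finset.mem_filter] at hi
  have h1 : coeff ((mo m).degree (p i)) (∑ j ∈ s, c j • p j) = c i * coeff ((mo m).degree (p i)) (p i) := by
    rw [coeff_sum, Finset.sum_eq_single i]
    · simp
    · intro j hj hji
      by_cases hcj : c j = 0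
      · simp [hcj]
      · have h2 := hmax j (by simp [hj, hcj])
        have h3 : (mo m).toSyn ((mo m).degree (p j)) ≠ (mo m).toSyn ((mo m).degree (p i)) := by
          intro h
          exact hji (hinj ((mo m).toSyn.injective h))
        have h4 : coeff ((mo m).degree (p i)) (p j) = 0 :=
          (mo m).coeff_eq_zero_of_lt (lt_of_le_of_ne h2 h3)
        simp [h4]
    · intro h
      exact absurd hi.1 h
  rw [hc] at h1
  have h2 : coeff ((mo m).degree (p i)) (p i) ≠ 0 := (mo m).coeff_degree_ne_zero_iff.2 (h0 i)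
  rw [coeff_zero] at h1
  exact (mul_ne_zero hi.2 h2) h1.symm

/-- A finite set of leading monomials has at most `dim V` elements. -/
theorem card_le {m : ℕ} (V : Submodule ℂ (MvPolynomial (Fin m) ℂ)) [FiniteDimensional ℂ V]
    (F : Finset (Fin m →₀ ℕ)) (hF : ∀ e ∈ F, ∃ p ∈ V, p ≠ 0 ∧ (mo m).degree p = e) :
    F.card ≤ Module.finrank ℂ V := by
  classical
  choose! p hpV hp0 hpd using hF
  have h1 : LinearIndependent ℂ (fun e : F => (⟨p e, hpV e e.2⟩ : V)) := by
    have h2 : LinearIndependent ℂ (fun e : F => p e) := by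
      refine li_of_deg _ (fun e => hp0 e e.2) ?_
      intro a b hab
      simp only [hpd a a.2, hpd b b.2] at hab
      exact Subtype.ext hab
    exact LinearIndependent.of_comp V.subtype (by simpa [Function.comp_def] using h2)
  have := h1.fintype_card_le_finrank
  simpa using this

/-- The set of the leading monomials of a finite dimensional space has at least `dim V` elements. -/
theorem exists_deg {m : ℕ} (V : Submodule ℂ (MvPolynomial (Fin m) ℂ)) [FiniteDimensional ℂ V] :
    ∃ A : Finset (Fin m →₀ ℕ), A.card = Module.finrank ℂ V ∧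
      ∀ e ∈ A, ∃ p ∈ V, p ≠ 0 ∧ (mo m).degree p = e := by
  classical
  set E : Set (Fin m →₀ ℕ) := {e | ∃ p ∈ V, p ≠ 0 ∧ (mo m).degree p = e} with hE
  have hfin : E.Finite := by
    by_contra hinf
    obtain ⟨F, hF, hcard⟩ := Set.Infinite.exists_subset_card_eq hinf (Module.finrank ℂ V + 1)
    have := card_le V F (fun e he => hF he)
    omega
  haveI : Fintype E := hfin.fintype
  let L : V →ₗ[ℂ] (E → ℂ) :=
    { toFun := fun p e => coeff e.1 p.1
      map_add' := by intro a b; ext e; simp
      map_smul' := by intro a b; ext e; simp }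
  have hL : Function.Injective L := by
    rw [injective_iff_map_eq_zero]
    intro p hp
    by_contra hne
    have hne' : p.1 ≠ 0 := fun h => hne (Subtype.ext h)
    have h1 : (mo m).degree p.1 ∈ E := ⟨p.1, p.2, hne', rfl⟩
    have h2 := congrFun hp ⟨_, h1⟩
    exact ((mo m).coeff_degree_ne_zero_iff.2 hne') h2
  have h1 : Module.finrank ℂ V ≤ E.toFinset.card := by
    have := LinearMap.finrank_le_finrank_of_injective hL
    rwa [Module.finrank_fintype_fun_eq_card, ← Set.toFinset_card] at this
  obtain ⟨A, hA, hc⟩ := Finset.exists_subset_card_eq h1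
  exact ⟨A, hc, fun e he => by
    have := hA he
    rw [Set.mem_toFinset] at this
    exact this⟩

/-- Indicator vectors. -/
def ind {m : ℕ} (S : Finset (Fin m)) : Fin m → ℤ := fun i => if i ∈ S then 1 else 0

theorem ind_inj {m : ℕ} : Function.Injective (ind (m := m)) := by
  intro S T h
  ext i
  have := congrFun h i
  simp only [ind] at this
  by_cases h1 : i ∈ S <;> by_cases h2 : i ∈ T <;> simp_all

theorem ind_mem {m : ℕ} (B : Finset (Fin m)) (k : ℕ) (j : ℕ) :
    ∀ S : Finset (Fin m), S ⊆ B → S.card = j * k →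
      ind S ∈ j • ((B.powersetCard k).image (ind (m := m))) := by
  classical
  induction j with
  | zero =>
    intro S hS hc
    have : S = ∅ := by
      rw [← Finset.card_eq_zero]
      simpa using hc
    subst this
    rw [zero_smul, Finset.mem_zero]
    ext i
    simp [ind]
  | succ j ih =>
    intro S hS hc
    obtain ⟨S1, h1, h1c⟩ := Finset.exists_subset_card_eq (s := S) (n := j * k) (by rw [hc]; nlinarith)
    rw [succ_nsmul, Finset.mem_add]
    refine ⟨ind S1, ih S1 (h1.trans hS) h1c, ind (S \ S1), ?_, ?_⟩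
    · rw [Finset.mem_image]
      refine ⟨S \ S1, ?_, rfl⟩
      rw [Finset.mem_powersetCard]
      refine ⟨Finset.sdiff_subset.trans hS, ?_⟩
      rw [Finset.card_sdiff_of_subset h1, hc, h1c]
      rw [Nat.succ_mul]
      omega
    · ext i
      simp only [Pi.add_apply, ind, Finset.mem_sdiff]
      by_cases h2 : i ∈ S1
      · simp [h2, h1 h2]
      · simp [h2]

theorem prodX {m : ℕ} (S : Finset (Fin m)) :
    (∏ i ∈ S, (X i : MvPolynomial (Fin m) ℂ)) = monomial (∑ i ∈ S, Finsupp.single i 1) 1 := by
  classical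
  induction S using Finset.induction_on with
  | empty => simp
  | insert a S ha ih =>
    rw [Finset.prod_insert ha, Finset.sum_insert ha, ih, X, monomial_mul, one_mul]

theorem h_exp : Pool.Agent.Helper66.DC.Q_EXP := by
  classical
  intro m k j g ρ B P hP hlt
  rcases Nat.eq_zero_or_pos g with rfl | hg
  · haveI : IsEmpty (Fin (ρ * 0)) := by rw [Nat.mul_zero]; infer_instance
    exact ⟨fun r => isEmptyElim r, fun r => isEmptyElim r, linearIndependent_empty_type⟩
  set V : Submodule ℂ (MvPolynomial (Fin m) ℂ) := Submodule.span ℂ (Set.range P) with hV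
  haveI : FiniteDimensional ℂ V := FiniteDimensional.span_of_finite ℂ (Set.finite_range P)
  have hVdim : Module.finrank ℂ V = g := by
    rw [hV, finrank_span_eq_card hP, Fintype.card_fin]
  let ι := {S : Finset (Fin m) // S ∈ B.powersetCard k} × Fin g
  let t : ι → MvPolynomial (Fin m) ℂ := fun r => (∏ i ∈ r.1.1, X i) * P r.2
  set T : Submodule ℂ (MvPolynomial (Fin m) ℂ) := Submodule.span ℂ (Set.range t) with hT
  haveI : FiniteDimensional ℂ T := FiniteDimensional.span_of_finite ℂ (Set.finite_range t)
  obtain ⟨A, hAc, hA⟩ := exists_deg V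
  rw [hVdim] at hAc
  have hAne : A.Nonempty := by rw [← Finset.card_pos, hAc]; exact hg
  -- multiplication by `X_S`
  have hmul : ∀ S ∈ B.powersetCard k, ∀ p ∈ V, (∏ i ∈ S, X i) * p ∈ T := by
    intro S hS p hp
    induction hp using Submodule.span_induction with
    | mem x hx =>
      obtain ⟨s, rfl⟩ := hx
      exact Submodule.subset_span ⟨(⟨S, hS⟩, s), rfl⟩
    | zero => rw [mul_zero]; exact T.zero_mem
    | add x y _ _ hx hy => rw [mul_add]; exact T.add_mem hx hy
    | smul a x _ hx => rw [mul_smul_comm]; exact T.smul_mem a hx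
  let F : Finset (Fin m →₀ ℕ) := (A ×ˢ B.powersetCard k).image
    fun r => (∑ i ∈ r.2, Finsupp.single i 1) + r.1
  have hFcard : F.card ≤ Module.finrank ℂ T := by
    apply card_le
    intro e he
    rw [Finset.mem_image] at he
    obtain ⟨⟨a, S⟩, hr, rfl⟩ := he
    rw [Finset.mem_product] at hr
    obtain ⟨p, hpV, hp0, hpd⟩ := hA a hr.1
    have hX : (∏ i ∈ S, (X i : MvPolynomial (Fin m) ℂ)) ≠ 0 := by
      rw [prodX]
      intro h
      have := (MvPolynomial.monomial_eq_zero (R := ℂ)).1 h
      exact one_ne_zero this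
    refine ⟨(∏ i ∈ S, X i) * p, hmul S hr.2 p hpV, mul_ne_zero hX hp0, ?_⟩
    rw [(mo m).degree_mul hX hp0, hpd, prodX, MonomialOrder.degree_monomial]
    simp
  -- Pluennecke
  let φ : (Fin m →₀ ℕ) → (Fin m → ℤ) := fun e i => (e i : ℤ)
  have hφ : Function.Injective φ := by
    intro a b h
    ext i
    have h2 : ((a i : ℕ) : ℤ) = ((b i : ℕ) : ℤ) := congrFun h i
    exact_mod_cast h2
  set Sg : Finset (Fin m → ℤ) := (B.powersetCard k).image (ind (m := m)) with hSg
  set A' : Finset (Fin m → ℤ) := A.image φ with hA'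
  have hA'c : A'.card = g := by rw [hA', Finset.card_image_of_injective _ hφ, hAc]
  have hA'ne : A'.Nonempty := by rw [← Finset.card_pos, hA'c]; exact hg
  have hsub : A' + Sg ⊆ F.image φ := by
    intro x hx
    rw [Finset.mem_add] at hx
    obtain ⟨a', ha', s', hs', rfl⟩ := hx
    rw [hA', Finset.mem_image] at ha'
    rw [hSg, Finset.mem_image] at hs'
    obtain ⟨a, ha, rfl⟩ := ha'
    obtain ⟨S, hS, rfl⟩ := hs'
    rw [Finset.mem_image]
    refine ⟨(∑ i ∈ S, Finsupp.single i 1) + a, ?_, ?_⟩
    · rw [Finset.mem_image]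
      exact ⟨(a, S), by rw [Finset.mem_product]; exact ⟨ha, hS⟩, rfl⟩
    · ext i
      simp only [φ, ind, Finsupp.add_apply, Pi.add_apply, Finsupp.finsetSum_apply, Finsupp.single_apply,
        Finset.sum_ite_eq']
      push_cast
      ring
  have hc1 : (A' + Sg).card ≤ Module.finrank ℂ T :=
    (Finset.card_le_card hsub).trans (Finset.card_image_le.trans hFcard)
  have hc2 : ρ * g ≤ Module.finrank ℂ T := by
    by_contra hcon
    push Not at hcon
    have h1 : (A' + Sg).card ≤ ρ * g := by omega
    have h2 := Finset.pluennecke_ruzsa_inequality_nsmul_add hA'ne Sg j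
    have h3 : (((A' + Sg).card : ℚ≥0) / (A'.card : ℚ≥0)) ≤ ρ := by
      rw [hA'c, div_le_iff₀ (by exact_mod_cast hg)]
      exact_mod_cast h1
    have h4 : ((j • Sg).card : ℚ≥0) ≤ (ρ : ℚ≥0) ^ j * g := by
      refine h2.trans ?_
      rw [hA'c]
      rw [hA'c] at h3
      gcongr
    have h5 : (j • Sg).card ≤ ρ ^ j * g := by exact_mod_cast h4
    have h6 : (B.card).choose (j * k) ≤ (j • Sg).card := by
      rw [← Finset.card_powersetCard, ← Finset.card_image_of_injective _ (ind_inj (m := m))]
      apply Finset.card_le_card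
      intro x hx
      rw [Finset.mem_image] at hx
      obtain ⟨S, hS, rfl⟩ := hx
      rw [Finset.mem_powersetCard] at hS
      exact ind_mem B k j S hS.1 hS.2
    omega
  -- choose independent vectors
  obtain ⟨κ, a, ha, hspan, hli⟩ := exists_linearIndependent' ℂ t
  haveI : Finite κ := Finite.of_injective a ha
  haveI : Fintype κ := Fintype.ofFinite κ
  have hκ : Fintype.card κ = Module.finrank ℂ T := by
    rw [hT, ← hspan, finrank_span_eq_card hli]
  have hle : Fintype.card (Fin (ρ * g)) ≤ Fintype.card κ := by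
    rw [hκ, Fintype.card_fin]; exact hc2
  obtain ⟨emb⟩ := Function.Embedding.nonempty_of_card_le hle
  refine ⟨fun r => ((a (emb r)).1.1, (a (emb r)).2), fun r => (a (emb r)).1.2, ?_⟩
  exact hli.comp emb emb.injective

end Pool.Agent.Helper33.DC
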