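import Mathlib
import Pool.Agent.Helper69.DC.Goals

/-!
# A proper map of balls sends the sphere to the sphere
-/

namespace Pool.Agent.Helper33.DC

open MvPolynomial Finset Filter Topology Pool.Agent.Helper28.Ball Pool.Agent.Helper69.DC

/-- A proper map sends the sphere to the sphere. -/
theorem g_sph : Pool.Agent.Helper69.DC.G_SPH := by
  intro n N p q hf z hz
  obtain ⟨-, hq, hb, hK⟩ := hf
  have hpos : ∀ k : ℕ, (0 : ℝ) < (k : ℝ) + 2 := fun k => by positivity
  obtain ⟨c, hc⟩ : ∃ c : ℕ → ℝ, c = fun k : ℕ => 1 - 1 / ((k : ℝ) + 2) := ⟨_, rfl⟩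
  have hc0 : ∀ k, 0 ≤ c k := by
    intro k
    have h1 : 1 / ((k : ℝ) + 2) ≤ 1 := by
      rw [div_le_one (hpos k)]
      have : (0 : ℝ) ≤ k := Nat.cast_nonneg k
      linarith
    rw [hc]
    show 0 ≤ 1 - 1 / ((k : ℝ) + 2)
    linarith
  have hc1 : ∀ k, c k < 1 := by
    intro k
    have h1 : 0 < 1 / ((k : ℝ) + 2) := by
      have := hpos k
      positivity
    rw [hc]
    show 1 - 1 / ((k : ℝ) + 2) < 1
    linarith
  have hct : Tendsto c atTop (𝓝 1) := by
    have h1 : Tendsto (fun k : ℕ => ((k : ℝ) + 2)) atTop atTop :=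
      tendsto_atTop_add_const_right _ _ tendsto_natCast_atTop_atTop
    have h2 : Tendsto (fun k : ℕ => 1 / ((k : ℝ) + 2)) atTop (𝓝 0) := by
      have h3 := h1.inv_tendsto_atTop
      refine h3.congr fun k => ?_
      show ((k : ℝ) + 2)⁻¹ = 1 / ((k : ℝ) + 2)
      rw [one_div]
    have h3 := (tendsto_const_nhds (x := (1 : ℝ))).sub h2
    rw [sub_zero] at h3
    rw [hc]
    exact h3
  obtain ⟨u, hu⟩ : ∃ u : ℕ → Fin n → ℂ, u = fun k i => (c k : ℂ) * z i := ⟨_, rfl⟩
  have hu1 : ∀ k, ∑ i, ‖u k i‖ ^ 2 < 1 := by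
    intro k
    have h1 : ∑ i, ‖u k i‖ ^ 2 = c k ^ 2 * ∑ i, ‖z i‖ ^ 2 := by
      rw [mul_sum]
      refine sum_congr rfl fun i _ => ?_
      rw [hu]
      show ‖(c k : ℂ) * z i‖ ^ 2 = _
      rw [norm_mul, mul_pow, Complex.norm_real, Real.norm_eq_abs, sq_abs]
    rw [h1, hz, mul_one]
    have := hc0 k
    have := hc1 k
    nlinarith
  have hut : Tendsto u atTop (𝓝 z) := by
    rw [tendsto_pi_nhds]
    intro i
    have h1 : Tendsto (fun k => (c k : ℂ) * z i) atTop (𝓝 ((1 : ℝ) * z i)) :=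
      ((Complex.continuous_ofReal.tendsto 1).comp hct).mul_const (z i)
    rw [Complex.ofReal_one, one_mul] at h1
    rw [hu]
    exact h1
  have hev : ∀ P : MvPolynomial (Fin n) ℂ,
      Tendsto (fun k => eval (u k) P) atTop (𝓝 (eval z P)) := fun P =>
    ((MvPolynomial.continuous_eval P).tendsto z).comp hut
  have hle : ∑ j, ‖eval z (p j)‖ ^ 2 ≤ ‖eval z q‖ ^ 2 := by
    refine le_of_tendsto_of_tendsto'
      (tendsto_finsetSum _ fun j _ => ((hev (p j)).norm.pow 2)) ((hev q).norm.pow 2) ?_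
    intro k
    have h1 := hb (u k) (hu1 k)
    have h2 := hq (u k) (hu1 k)
    have h3 : 0 < ‖eval (u k) q‖ ^ 2 := by
      have := norm_pos_iff.2 h2
      positivity
    have h4 : ∑ j, ‖eval (u k) (p j) / eval (u k) q‖ ^ 2 =
        (∑ j, ‖eval (u k) (p j)‖ ^ 2) / ‖eval (u k) q‖ ^ 2 := by
      rw [sum_div]
      refine sum_congr rfl fun j _ => ?_
      rw [norm_div, div_pow]
    rw [h4, div_lt_one h3] at h1
    exact h1.le
  rcases hle.eq_or_lt with h | h
  · exact h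
  exfalso
  have hqz : eval z q ≠ 0 := by
    intro h0
    rw [h0, norm_zero] at h
    have h1 : 0 ≤ ∑ j, ‖eval z (p j)‖ ^ 2 := sum_nonneg fun j _ => by positivity
    have h2 : (0 : ℝ) ^ 2 = 0 := by norm_num
    rw [h2] at h
    linarith
  have hft : Tendsto (fun k => (fun j => eval (u k) (p j) / eval (u k) q : Fin N → ℂ)) atTop
      (𝓝 (fun j => eval z (p j) / eval z q)) := by
    rw [tendsto_pi_nhds]
    intro j
    exact (hev (p j)).div (hev q) hqz
  have hKc := hft.isCompact_insert_range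
  have hcomp := hK _ hKc (by
    intro w hw
    rcases hw with rfl | ⟨k, rfl⟩
    · show ∑ j, ‖eval z (p j) / eval z q‖ ^ 2 < 1
      have h3 : 0 < ‖eval z q‖ ^ 2 := by
        have := norm_pos_iff.2 hqz
        positivity
      have h4 : ∑ j, ‖eval z (p j) / eval z q‖ ^ 2 =
          (∑ j, ‖eval z (p j)‖ ^ 2) / ‖eval z q‖ ^ 2 := by
        rw [sum_div]
        refine sum_congr rfl fun j _ => ?_
        rw [norm_div, div_pow]
      rw [h4, div_lt_one h3]
      exact h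
    · exact hb (u k) (hu1 k))
  have hmem := hcomp.isClosed.mem_of_tendsto hut
    (Eventually.of_forall fun k => ⟨hu1 k, Or.inr ⟨k, rfl⟩⟩)
  have h5 : ∑ i, ‖z i‖ ^ 2 < 1 := hmem.1
  rw [hz] at h5
  exact lt_irrefl _ h5

end Pool.Agent.Helper33.DC
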